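import Mathlib

/-!
# The (x,y) edge-removal process: definitions

A task-dependency graph on `n` vertices is represented by its set of edges, a
`Finset (Fin n × Fin n)`; the process starts from the complete one, whose edges are
all the pairs `(a, b)` with `a < b`.
-/

open Filter Topology
open scoped ENNReal

namespace Pool.Agent.H95.EdgeRemoval

section Defs

variable {n : ℕ}

/-- The complete task-dependency graph: all pairs `(a, b)` with `a < b`. -/
def completeGraph (n : ℕ) : Finset (Fin n × Fin n) :=
  Finset.univ.filter fun e => e.1 < e.2

/-- The initial vertices of a graph: the vertices of in-degree `0`. -/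
def initials (G : Finset (Fin n × Fin n)) : Finset (Fin n) :=
  Finset.univ.filter fun v => ∀ e ∈ G, e.2 ≠ v

/-- The terminal vertices of a graph: the vertices of out-degree `0`. -/
def terminals (G : Finset (Fin n × Fin n)) : Finset (Fin n) :=
  Finset.univ.filter fun v => ∀ e ∈ G, e.1 ≠ v

/-- The removal of the edge `e` from `G` is not cancelled: the resulting graph has at most
`x` initial vertices and at most `y` terminal vertices. -/
def Allowed (x y : ℕ) (G : Finset (Fin n × Fin n)) (e : Fin n × Fin n) : Prop :=
  (initials (G.erase e)).card ≤ x ∧ (terminals (G.erase e)).card ≤ y

/-- The process has stopped at `G`: no present edge can be removed without cancellation. -/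
def Stopped (x y : ℕ) (G : Finset (Fin n × Fin n)) : Prop :=
  ∀ e ∈ G, ¬ Allowed x y G e

open Classical in
/-- One step of the process: if it has stopped it stays where it is; otherwise a present edge
is picked uniformly at random, and it is removed unless its removal is cancelled. -/
noncomputable def step (x y : ℕ) (G : Finset (Fin n × Fin n)) :
    PMF (Finset (Fin n × Fin n)) :=
  if h : ¬ Stopped x y G ∧ G.Nonempty then
    (PMF.uniformOfFinset G h.2).map fun e => if Allowed x y G e then G.erase e else G
  else PMF.pure G

/-- The law of the process after `k` steps, started from the complete graph. -/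
noncomputable def law (x y n k : ℕ) : PMF (Finset (Fin n × Fin n)) :=
  (fun μ => μ.bind (step x y))^[k] (PMF.pure (completeGraph n))

/-- `G` has exactly `x` initial vertices and exactly `y` terminal vertices. -/
def IsXY (x y : ℕ) (G : Finset (Fin n × Fin n)) : Prop :=
  (initials G).card = x ∧ (terminals G).card = y

/-- The probability that the `(x,y)` edge-removal process on `n` vertices stops at an `(x,y)`
task-dependency graph: the (increasing) limit over `k` of the probability that after `k` steps
the process has stopped at such a graph. -/
noncomputable def stopProb (x y n : ℕ) : ℝ≥0∞ :=
  ⨆ k, (law x y n k).toOuterMeasure {G | Stopped x y G ∧ IsXY x y G}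

end Defs

end Pool.Agent.H95.EdgeRemoval
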