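import Pool.Agent.H95.EdgeRemoval.Defs

/-!
# The (x,y) edge-removal process: proof
-/

open Filter Topology
open scoped ENNReal

namespace Pool.Agent.H95.EdgeRemoval


/-! ## Expectations along the chain -/

section Expect

variable {n : ℕ}

/-- Expectation of `h` under `μ`. -/
noncomputable def ex {α : Type*} (μ : PMF α) (h : α → ℝ≥0∞) : ℝ≥0∞ := ∑' a, μ a * h a

lemma ex_mono {α : Type*} (μ : PMF α) {h g : α → ℝ≥0∞} (hg : ∀ a, μ a ≠ 0 → h a ≤ g a) :
    ex μ h ≤ ex μ g := by
  unfold ex
  refine ENNReal.tsum_le_tsum fun a => ?_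
  by_cases ha : μ a = 0
  · simp [ha]
  · exact mul_le_mul_right (hg a ha) _

lemma ex_pure {α : Type*} (a : α) (h : α → ℝ≥0∞) : ex (PMF.pure a) h = h a := by
  unfold ex
  rw [tsum_eq_single a]
  · simp
  · intro b hb
    simp [PMF.pure_apply, hb]

lemma ex_bind {α β : Type*} (μ : PMF α) (f : α → PMF β) (h : β → ℝ≥0∞) :
    ex (μ.bind f) h = ex μ fun a => ex (f a) h := by
  unfold ex
  simp only [PMF.bind_apply]
  simp_rw [← ENNReal.tsum_mul_right]
  rw [ENNReal.tsum_comm]
  refine tsum_congr fun a => ?_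
  rw [← ENNReal.tsum_mul_left]
  refine tsum_congr fun b => ?_
  ring

lemma ex_indicator {α : Type*} (μ : PMF α) (s : Set α) [DecidablePred (· ∈ s)] :
    ex μ (fun a => if a ∈ s then 1 else 0) = μ.toOuterMeasure s := by
  unfold ex
  rw [PMF.toOuterMeasure_apply]
  refine tsum_congr fun a => ?_
  by_cases h : a ∈ s <;> simp [h]

lemma ex_add {α : Type*} (μ : PMF α) (h g : α → ℝ≥0∞) :
    ex μ (fun a => h a + g a) = ex μ h + ex μ g := by
  unfold ex
  rw [← ENNReal.tsum_add]
  refine tsum_congr fun a => ?_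
  ring

lemma ex_mul_left {α : Type*} (μ : PMF α) (c : ℝ≥0∞) (h : α → ℝ≥0∞) :
    ex μ (fun a => c * h a) = c * ex μ h := by
  unfold ex
  rw [← ENNReal.tsum_mul_left]
  refine tsum_congr fun a => ?_
  ring

lemma ex_sum {α ι : Type*} (μ : PMF α) (s : Finset ι) (h : ι → α → ℝ≥0∞) :
    ex μ (fun a => ∑ i ∈ s, h i a) = ∑ i ∈ s, ex μ (h i) := by
  unfold ex
  simp_rw [Finset.mul_sum]
  rw [Summable.tsum_finsetSum]
  intro i _
  exact ENNReal.summable

lemma ex_const {α : Type*} (μ : PMF α) (c : ℝ≥0∞) : ex μ (fun _ => c) = c := by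
  unfold ex
  rw [ENNReal.tsum_mul_right, PMF.tsum_coe, one_mul]

lemma ex_uniform_map {α β : Type*} [DecidableEq α] (s : Finset α) (hs : s.Nonempty)
    (g : α → β) (h : β → ℝ≥0∞) :
    ex ((PMF.uniformOfFinset s hs).map g) h = (s.card : ℝ≥0∞)⁻¹ * ∑ a ∈ s, h (g a) := by
  rw [PMF.map, ex_bind]
  simp only [Function.comp_apply, ex_pure]
  unfold ex
  simp only [PMF.uniformOfFinset_apply]
  rw [tsum_eq_sum (s := s)]
  · rw [Finset.mul_sum]
    refine Finset.sum_congr rfl fun a ha => ?_
    simp [ha]
  · intro a ha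
    simp [ha]

end Expect

/-! ## The supermartingale -/

section Super

variable {n : ℕ}

/-- The vertices missed by the coordinate `π` of all the edges of `G`. -/
def emp (π : Fin n × Fin n → Fin n) (G : Finset (Fin n × Fin n)) : Finset (Fin n) :=
  Finset.univ.filter fun v => ∀ e ∈ G, π e ≠ v

/-- The edges of `G` with the same `π`-coordinate as `e`. -/
def fib (π : Fin n × Fin n → Fin n) (e : Fin n × Fin n) (G : Finset (Fin n × Fin n)) :
    Finset (Fin n × Fin n) :=
  G.filter fun f => π f = π e

lemma emp_anti (π : Fin n × Fin n → Fin n) {G H : Finset (Fin n × Fin n)} (h : G ⊆ H) :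
    emp π H ⊆ emp π G := by
  intro v hv
  simp only [emp, Finset.mem_filter, Finset.mem_univ, true_and] at hv ⊢
  exact fun e he => hv e (h he)

lemma emp_erase_card (π : Fin n × Fin n → Fin n) (G : Finset (Fin n × Fin n))
    (e : Fin n × Fin n) : (emp π (G.erase e)).card ≤ (emp π G).card + 1 := by
  have : emp π (G.erase e) ⊆ insert (π e) (emp π G) := by
    intro v hv
    simp only [emp, Finset.mem_filter, Finset.mem_univ, true_and, Finset.mem_insert] at hv ⊢
    by_cases h : v = π e
    · exact Or.inl h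
    · refine Or.inr fun f hf hfv => ?_
      refine hv f (Finset.mem_erase.2 ⟨?_, hf⟩) hfv
      rintro rfl
      exact h hfv.symm
  calc (emp π (G.erase e)).card ≤ (insert (π e) (emp π G)).card := Finset.card_le_card this
    _ ≤ (emp π G).card + 1 := Finset.card_insert_le _ _

lemma emp_erase_of_two (π : Fin n × Fin n → Fin n) {G : Finset (Fin n × Fin n)}
    {e : Fin n × Fin n} (h : 2 ≤ (fib π e G).card) : emp π (G.erase e) = emp π G := by
  refine Finset.Subset.antisymm ?_ (emp_anti π (Finset.erase_subset _ _))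
  intro v hv
  simp only [emp, Finset.mem_filter, Finset.mem_univ, true_and] at hv ⊢
  intro f hf hfv
  by_cases hfe : f = e
  · subst hfe
    obtain ⟨g, hg, hgf⟩ := Finset.exists_mem_ne (by omega : 1 < (fib π f G).card) f
    simp only [fib, Finset.mem_filter] at hg
    exact hv g (Finset.mem_erase.2 ⟨hgf, hg.1⟩) (hg.2.trans hfv)
  · exact hv f (Finset.mem_erase.2 ⟨hfe, hf⟩) hfv

open Classical in
/-- The supermartingale attached to the edge `e`. -/
noncomputable def sm (π₁ π₂ : Fin n × Fin n → Fin n) (x y : ℕ) (e : Fin n × Fin n)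
    (G : Finset (Fin n × Fin n)) : ℝ≥0∞ :=
  if (emp π₁ G).card < x ∧ (emp π₂ G).card ≤ y ∧ e ∈ G then ((fib π₂ e G).card : ℝ≥0∞)⁻¹ else 0

open Classical in
/-- The one-step kernel for a general rule `A` saying which removals are allowed. -/
noncomputable def gstep (A : Finset (Fin n × Fin n) → Fin n × Fin n → Prop)
    (G : Finset (Fin n × Fin n)) : PMF (Finset (Fin n × Fin n)) :=
  if h : ¬ (∀ e ∈ G, ¬ A G e) ∧ G.Nonempty then
    (PMF.uniformOfFinset G h.2).map fun e => if A G e then G.erase e else G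
  else PMF.pure G

lemma step_eq_gstep (x y : ℕ) :
    (step x y : Finset (Fin n × Fin n) → PMF (Finset (Fin n × Fin n))) =
      gstep (Allowed x y) := by
  funext G
  unfold step gstep
  by_cases h : ¬ Stopped x y G ∧ G.Nonempty
  · have h' : ¬ (∀ e ∈ G, ¬ Allowed x y G e) ∧ G.Nonempty := h
    rw [dif_pos h, dif_pos h']
  · have h' : ¬ (¬ (∀ e ∈ G, ¬ Allowed x y G e) ∧ G.Nonempty) := h
    rw [dif_neg h, dif_neg h']

lemma sm_erase_le (π₁ π₂ : Fin n × Fin n → Fin n) (x y : ℕ) (e f : Fin n × Fin n)
    (G : Finset (Fin n × Fin n)) (hG : sm π₁ π₂ x y e G = 0) :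
    sm π₁ π₂ x y e (G.erase f) = 0 := by
  unfold sm at hG ⊢
  split_ifs with h
  · exfalso
    have hsub := Finset.erase_subset f G
    have h1 := Finset.card_le_card (emp_anti π₁ hsub)
    have h2 := Finset.card_le_card (emp_anti π₂ hsub)
    have h3 : (emp π₁ G).card < x ∧ (emp π₂ G).card ≤ y ∧ e ∈ G :=
      ⟨by omega, by omega, hsub h.2.2⟩
    rw [if_pos h3] at hG
    exact (ENNReal.inv_ne_zero.2 (ENNReal.natCast_ne_top _)) hG
  · rfl

open Classical in
lemma sum_sm_le (A : Finset (Fin n × Fin n) → Fin n × Fin n → Prop)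
    (π₁ π₂ : Fin n × Fin n → Fin n) (x y : ℕ)
    (hA : ∀ G e, A G e ↔ (emp π₁ (G.erase e)).card ≤ x ∧ (emp π₂ (G.erase e)).card ≤ y)
    (e : Fin n × Fin n) (G : Finset (Fin n × Fin n)) :
    ∑ f ∈ G, sm π₁ π₂ x y e (if A G f then G.erase f else G) ≤
      (G.card : ℝ≥0∞) * sm π₁ π₂ x y e G := by
  by_cases hG : (emp π₁ G).card < x ∧ (emp π₂ G).card ≤ y ∧ e ∈ G
  swap
  · have h0 : sm π₁ π₂ x y e G = 0 := by unfold sm; rw [if_neg hG]
    rw [h0, mul_zero]
    refine le_of_eq (Finset.sum_eq_zero fun f _ => ?_)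
    split_ifs
    · exact sm_erase_le _ _ _ _ _ _ _ h0
    · exact h0
  obtain ⟨hx, hy, he⟩ := hG
  have hsm : sm π₁ π₂ x y e G = ((fib π₂ e G).card : ℝ≥0∞)⁻¹ := by
    unfold sm; rw [if_pos ⟨hx, hy, he⟩]
  have hmem : e ∈ fib π₂ e G := by simp [fib, he]
  have hk1 : 1 ≤ (fib π₂ e G).card := Finset.card_pos.2 ⟨e, hmem⟩
  -- general bound by one
  have hle1 : ∀ H, sm π₁ π₂ x y e H ≤ 1 := by
    intro H
    unfold sm
    split_ifs with h
    · have : e ∈ fib π₂ e H := by simp [fib, h.2.2]
      have h1 : 1 ≤ (fib π₂ e H).card := Finset.card_pos.2 ⟨e, this⟩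
      rw [ENNReal.inv_le_one]
      exact_mod_cast h1
    · exact zero_le_one
  rcases Nat.lt_or_ge 1 (fib π₂ e G).card with hk | hk
  swap
  · -- only one edge in the fibre
    have hk' : (fib π₂ e G).card = 1 := le_antisymm hk hk1
    rw [hsm, hk']
    calc ∑ f ∈ G, sm π₁ π₂ x y e (if A G f then G.erase f else G) ≤ ∑ f ∈ G, 1 :=
          Finset.sum_le_sum fun f _ => hle1 _
      _ = (G.card : ℝ≥0∞) * ((1 : ℕ) : ℝ≥0∞)⁻¹ := by simp
  -- at least two edges in the fibre: all of them are removable
  set k := (fib π₂ e G).card with hkdef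
  have hfibsub : fib π₂ e G ⊆ G := Finset.filter_subset _ _
  have hsplit : ∑ f ∈ G, sm π₁ π₂ x y e (if A G f then G.erase f else G) =
      ∑ f ∈ G \ fib π₂ e G, sm π₁ π₂ x y e (if A G f then G.erase f else G) +
      ∑ f ∈ fib π₂ e G, sm π₁ π₂ x y e (if A G f then G.erase f else G) :=
    (Finset.sum_sdiff hfibsub).symm
  have hAfib : ∀ f ∈ fib π₂ e G, A G f := by
    intro f hf
    have hf' := hf
    simp only [fib, Finset.mem_filter] at hf'
    have hfe : fib π₂ f G = fib π₂ e G := by
      unfold fib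
      rw [hf'.2]
    rw [hA]
    refine ⟨?_, ?_⟩
    · have := emp_erase_card π₁ G f
      omega
    · rw [emp_erase_of_two π₂ (by rw [hfe]; exact hk)]
      exact hy
  have h1 : ∑ f ∈ G \ fib π₂ e G, sm π₁ π₂ x y e (if A G f then G.erase f else G) ≤
      ((G \ fib π₂ e G).card : ℝ≥0∞) * (k : ℝ≥0∞)⁻¹ := by
    rw [← nsmul_eq_mul, ← Finset.sum_const]
    refine Finset.sum_le_sum fun f hf => ?_
    rw [Finset.mem_sdiff] at hf
    have hfne : π₂ f ≠ π₂ e := by
      intro h
      exact hf.2 (by simp [fib, hf.1, h])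
    split_ifs with hAf
    · unfold sm
      split_ifs with h
      · have : fib π₂ e (G.erase f) = fib π₂ e G := by
          ext g
          simp only [fib, Finset.mem_filter, Finset.mem_erase]
          constructor
          · rintro ⟨⟨_, h2⟩, h3⟩
            exact ⟨h2, h3⟩
          · rintro ⟨h2, h3⟩
            refine ⟨⟨?_, h2⟩, h3⟩
            rintro rfl
            exact hfne h3
        rw [this]
      · exact bot_le
    · rw [hsm]
  have h2 : ∑ f ∈ fib π₂ e G, sm π₁ π₂ x y e (if A G f then G.erase f else G) ≤ 1 := by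
    rw [← Finset.add_sum_erase _ _ hmem]
    have hzero : sm π₁ π₂ x y e (if A G e then G.erase e else G) = 0 := by
      rw [if_pos (hAfib e hmem)]
      unfold sm
      rw [if_neg]
      rintro ⟨_, _, h3⟩
      exact (Finset.notMem_erase e G) h3
    rw [hzero, zero_add]
    calc ∑ f ∈ (fib π₂ e G).erase e, sm π₁ π₂ x y e (if A G f then G.erase f else G)
        ≤ ∑ f ∈ (fib π₂ e G).erase e, ((k - 1 : ℕ) : ℝ≥0∞)⁻¹ := by
          refine Finset.sum_le_sum fun f hf => ?_
          rw [Finset.mem_erase] at hf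
          rw [if_pos (hAfib f hf.2)]
          unfold sm
          split_ifs with h
          · have : fib π₂ e (G.erase f) = (fib π₂ e G).erase f := by
              unfold fib
              rw [Finset.filter_erase]
            rw [this, Finset.card_erase_of_mem hf.2]
          · exact bot_le
      _ = ((k - 1 : ℕ) : ℝ≥0∞) * ((k - 1 : ℕ) : ℝ≥0∞)⁻¹ := by
          rw [Finset.sum_const, Finset.card_erase_of_mem hmem, nsmul_eq_mul]
      _ ≤ 1 := ENNReal.mul_inv_le_one _
  rw [hsplit, hsm]
  calc _ ≤ ((G \ fib π₂ e G).card : ℝ≥0∞) * (k : ℝ≥0∞)⁻¹ + 1 := add_le_add h1 h2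
    _ = ((G \ fib π₂ e G).card : ℝ≥0∞) * (k : ℝ≥0∞)⁻¹ + (k : ℝ≥0∞) * (k : ℝ≥0∞)⁻¹ := by
        rw [ENNReal.mul_inv_cancel]
        · have : k ≠ 0 := by omega
          exact_mod_cast this
        · exact ENNReal.natCast_ne_top _
    _ = (G.card : ℝ≥0∞) * (k : ℝ≥0∞)⁻¹ := by
        rw [← add_mul]
        congr 1
        have := Finset.card_sdiff_add_card_eq_card hfibsub
        exact_mod_cast this

open Classical in
lemma ex_gstep_sm (A : Finset (Fin n × Fin n) → Fin n × Fin n → Prop)
    (π₁ π₂ : Fin n × Fin n → Fin n) (x y : ℕ)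
    (hA : ∀ G e, A G e ↔ (emp π₁ (G.erase e)).card ≤ x ∧ (emp π₂ (G.erase e)).card ≤ y)
    (e : Fin n × Fin n) (G : Finset (Fin n × Fin n)) :
    ex (gstep A G) (sm π₁ π₂ x y e) ≤ sm π₁ π₂ x y e G := by
  unfold gstep
  split_ifs with h
  · rw [ex_uniform_map]
    have hc : (G.card : ℝ≥0∞) ≠ 0 := by
      have := Finset.card_pos.2 h.2
      exact_mod_cast (by omega : G.card ≠ 0)
    calc (G.card : ℝ≥0∞)⁻¹ * ∑ f ∈ G, sm π₁ π₂ x y e (if A G f then G.erase f else G)
        ≤ (G.card : ℝ≥0∞)⁻¹ * ((G.card : ℝ≥0∞) * sm π₁ π₂ x y e G) :=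
          mul_le_mul_right (sum_sm_le A π₁ π₂ x y hA e G) _
      _ = sm π₁ π₂ x y e G := by
          rw [← mul_assoc, ENNReal.inv_mul_cancel hc (ENNReal.natCast_ne_top _), one_mul]
  · rw [ex_pure]

lemma sm_eq_one (A : Finset (Fin n × Fin n) → Fin n × Fin n → Prop)
    (π₁ π₂ : Fin n × Fin n → Fin n) (x y : ℕ)
    (hA : ∀ G e, A G e ↔ (emp π₁ (G.erase e)).card ≤ x ∧ (emp π₂ (G.erase e)).card ≤ y)
    (G : Finset (Fin n × Fin n)) (hs : ∀ e ∈ G, ¬ A G e) (hx : (emp π₁ G).card < x)
    (hy : (emp π₂ G).card ≤ y) (e : Fin n × Fin n) (he : e ∈ G) : sm π₁ π₂ x y e G = 1 := by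
  unfold sm
  rw [if_pos ⟨hx, hy, he⟩]
  have hmem : e ∈ fib π₂ e G := by simp [fib, he]
  have hk1 : 1 ≤ (fib π₂ e G).card := Finset.card_pos.2 ⟨e, hmem⟩
  have hk2 : ¬ 2 ≤ (fib π₂ e G).card := by
    intro h2
    refine hs e he ((hA G e).2 ⟨?_, ?_⟩)
    · have := emp_erase_card π₁ G e
      omega
    · rw [emp_erase_of_two π₂ h2]
      exact hy
  have hk : (fib π₂ e G).card = 1 := by omega
  rw [hk]
  simp

end Super

/-! ## Invariants of the chain -/

section Chain

lemma law_zero (x y n : ℕ) : law x y n 0 = PMF.pure (completeGraph n) := rfl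

lemma law_succ (x y n k : ℕ) : law x y n (k + 1) = (law x y n k).bind (step x y) := by
  unfold law
  rw [Function.iterate_succ_apply']

variable {n : ℕ} (x y : ℕ)

lemma ex_law_sm (π₁ π₂ : Fin n × Fin n → Fin n) (x' y' : ℕ)
    (hA : ∀ (G : Finset (Fin n × Fin n)) (e : Fin n × Fin n), Allowed x y G e ↔
      (emp π₁ (G.erase e)).card ≤ x' ∧ (emp π₂ (G.erase e)).card ≤ y')
    (e : Fin n × Fin n) (k : ℕ) :
    ex (law x y n k) (sm π₁ π₂ x' y' e) ≤ sm π₁ π₂ x' y' e (completeGraph n) := by
  induction k with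
  | zero => rw [law_zero, ex_pure]
  | succ k ih =>
    rw [law_succ, ex_bind]
    refine le_trans (ex_mono _ fun G _ => ?_) ih
    rw [step_eq_gstep]
    exact ex_gstep_sm _ π₁ π₂ x' y' hA e G

/-- A property preserved by allowed removals holds along the chain. -/
lemma law_inv (P : Finset (Fin n × Fin n) → Prop) (h0 : P (completeGraph n))
    (hP : ∀ G e, P G → e ∈ G → Allowed x y G e → P (G.erase e)) (k : ℕ) :
    ∀ G, law x y n k G ≠ 0 → P G := by
  induction k with
  | zero =>
    intro G hG
    rw [law_zero] at hG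
    have : G ∈ (PMF.pure (completeGraph n)).support := hG
    rw [PMF.support_pure, Set.mem_singleton_iff] at this
    rw [this]
    exact h0
  | succ k ih =>
    intro G hG
    rw [law_succ] at hG
    have hG' : G ∈ ((law x y n k).bind (step x y)).support := hG
    rw [PMF.mem_support_bind_iff] at hG'
    obtain ⟨H, hH, hHG⟩ := hG'
    have hPH := ih H hH
    unfold step at hHG
    split_ifs at hHG with h
    · rw [PMF.mem_support_map_iff] at hHG
      obtain ⟨e, he, heG⟩ := hHG
      rw [PMF.mem_support_uniformOfFinset_iff] at he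
      split_ifs at heG with hAl
      · rw [← heG]
        exact hP H e hPH he hAl
      · rw [← heG]
        exact hPH
    · rw [PMF.support_pure, Set.mem_singleton_iff] at hHG
      rw [hHG]
      exact hPH

lemma law_subset (k : ℕ) (G : Finset (Fin n × Fin n)) (hG : law x y n k G ≠ 0) :
    G ⊆ completeGraph n :=
  law_inv x y (fun G => G ⊆ completeGraph n) (Finset.Subset.refl _)
    (fun _ _ hG _ _ => (Finset.erase_subset _ _).trans hG) k G hG

lemma initials_complete (hx : 1 ≤ x) : (initials (completeGraph n)).card ≤ x := by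
  refine le_trans ?_ hx
  rw [Finset.card_le_one]
  have key : ∀ v ∈ initials (completeGraph n), v.val = 0 := by
    intro v hv
    simp only [initials, completeGraph, Finset.mem_filter, Finset.mem_univ, true_and] at hv
    by_contra hne
    have hpos : 0 < v.val := Nat.pos_of_ne_zero hne
    exact hv (⟨0, by omega⟩, v) (by simp [Fin.lt_def, hpos]) rfl
  intro a ha b hb
  exact Fin.ext (by rw [key a ha, key b hb])

lemma terminals_complete (hy : 1 ≤ y) : (terminals (completeGraph n)).card ≤ y := by
  refine le_trans ?_ hy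
  rw [Finset.card_le_one]
  have key : ∀ v ∈ terminals (completeGraph n), v.val = n - 1 := by
    intro v hv
    simp only [terminals, completeGraph, Finset.mem_filter, Finset.mem_univ, true_and] at hv
    by_contra hne
    have hlt : v.val < n - 1 := by omega
    exact hv (v, ⟨n - 1, by omega⟩) (by simp [Fin.lt_def, hlt]) rfl
  intro a ha b hb
  exact Fin.ext (by rw [key a ha, key b hb])

lemma law_card (hx : 1 ≤ x) (hy : 1 ≤ y) (k : ℕ) (G : Finset (Fin n × Fin n))
    (hG : law x y n k G ≠ 0) : (initials G).card ≤ x ∧ (terminals G).card ≤ y :=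
  law_inv x y (fun G => (initials G).card ≤ x ∧ (terminals G).card ≤ y)
    ⟨initials_complete x hx, terminals_complete y hy⟩ (fun _ _ _ _ h => h) k G hG

open Classical in
/-- The mass of the stopped graphs missing too few `π₁`-coordinates. -/
lemma stopped_lt_le (π₁ π₂ : Fin n × Fin n → Fin n) (x' y' : ℕ)
    (hA : ∀ (G : Finset (Fin n × Fin n)) (e : Fin n × Fin n), Allowed x y G e ↔
      (emp π₁ (G.erase e)).card ≤ x' ∧ (emp π₂ (G.erase e)).card ≤ y')
    (hy' : ∀ k (G : Finset (Fin n × Fin n)), law x y n k G ≠ 0 → (emp π₂ G).card ≤ y')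
    (S : Finset (Fin n × Fin n))
    (hS : ∀ G ⊆ completeGraph n, (emp π₁ G).card < x' → ∃ e ∈ S, e ∈ G) (k : ℕ) :
    ex (law x y n k) (fun G => if Stopped x y G ∧ (emp π₁ G).card < x' then 1 else 0) ≤
      ∑ e ∈ S, sm π₁ π₂ x' y' e (completeGraph n) := by
  calc ex (law x y n k) (fun G => if Stopped x y G ∧ (emp π₁ G).card < x' then 1 else 0)
      ≤ ex (law x y n k) (fun G => ∑ e ∈ S, sm π₁ π₂ x' y' e G) := by
        refine ex_mono _ fun G hG => ?_
        split_ifs with h
        · obtain ⟨e, heS, heG⟩ := hS G (law_subset x y k G hG) h.2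
          have h1 := sm_eq_one (Allowed x y) π₁ π₂ x' y' hA G h.1 h.2 (hy' k G hG) e heG
          calc (1 : ℝ≥0∞) = sm π₁ π₂ x' y' e G := h1.symm
            _ ≤ ∑ e ∈ S, sm π₁ π₂ x' y' e G :=
              Finset.single_le_sum (f := fun e => sm π₁ π₂ x' y' e G)
                (fun _ _ => bot_le) heS
        · exact bot_le
    _ = ∑ e ∈ S, ex (law x y n k) (sm π₁ π₂ x' y' e) := ex_sum _ _ _
    _ ≤ ∑ e ∈ S, sm π₁ π₂ x' y' e (completeGraph n) :=
        Finset.sum_le_sum fun e _ => ex_law_sm x y π₁ π₂ x' y' hA e k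

open Classical in
/-- From a graph at which the process has not stopped, the expected number of edges decreases. -/
lemma ex_step_card (G : Finset (Fin n × Fin n)) :
    ex (step x y G) (fun H => (H.card : ℝ≥0∞)) +
      (if ¬ Stopped x y G then (1 : ℝ≥0∞) else 0) * ((n * n : ℕ) : ℝ≥0∞)⁻¹ ≤ G.card := by
  by_cases hS : Stopped x y G
  · have : step x y G = PMF.pure G := by
      unfold step
      rw [dif_neg]
      exact fun h => h.1 hS
    rw [this, ex_pure]
    simp [hS]
  · have hS' := hS
    unfold Stopped at hS'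
    push Not at hS'
    obtain ⟨e, heG, heA⟩ := hS'
    have hne : G.Nonempty := ⟨e, heG⟩
    have hcard : G.card ≤ n * n := by
      calc G.card ≤ (Finset.univ : Finset (Fin n × Fin n)).card := Finset.card_le_univ _
        _ = n * n := by simp
    have hpos : 0 < G.card := Finset.card_pos.2 hne
    have hc0 : (G.card : ℝ≥0∞) ≠ 0 := by exact_mod_cast hpos.ne'
    have hct : (G.card : ℝ≥0∞) ≠ ⊤ := ENNReal.natCast_ne_top _
    unfold step
    rw [dif_pos ⟨hS, hne⟩, ex_uniform_map, if_pos hS, one_mul]
    have hsum : ∑ f ∈ G, (((if Allowed x y G f then G.erase f else G).card : ℕ) : ℝ≥0∞) + 1 ≤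
        (G.card : ℝ≥0∞) * G.card := by
      have : ∑ f ∈ G, (if Allowed x y G f then G.erase f else G).card + 1 ≤ G.card * G.card := by
        rw [← Finset.add_sum_erase _ _ heG, if_pos heA, Finset.card_erase_of_mem heG]
        have h2 : ∑ f ∈ G.erase e, (if Allowed x y G f then G.erase f else G).card ≤
            (G.erase e).card * G.card := by
          rw [← smul_eq_mul, ← Finset.sum_const]
          refine Finset.sum_le_sum fun f _ => ?_
          split_ifs
          · exact Finset.card_le_card (Finset.erase_subset _ _)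
          · exact le_rfl
        rw [Finset.card_erase_of_mem heG] at h2
        have h3 : (G.card - 1) * G.card + G.card = G.card * G.card := by
          obtain ⟨m, hm⟩ : ∃ m, G.card = m + 1 := ⟨G.card - 1, by omega⟩
          rw [hm]
          simp only [Nat.add_sub_cancel]
          ring
        omega
      exact_mod_cast this
    calc (G.card : ℝ≥0∞)⁻¹ *
          ∑ f ∈ G, (((if Allowed x y G f then G.erase f else G).card : ℕ) : ℝ≥0∞) +
          ((n * n : ℕ) : ℝ≥0∞)⁻¹
        ≤ (G.card : ℝ≥0∞)⁻¹ *
          ∑ f ∈ G, (((if Allowed x y G f then G.erase f else G).card : ℕ) : ℝ≥0∞) +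
          (G.card : ℝ≥0∞)⁻¹ * 1 := by
          refine add_le_add le_rfl ?_
          rw [mul_one]
          exact ENNReal.inv_le_inv.2 (by exact_mod_cast hcard)
      _ = (G.card : ℝ≥0∞)⁻¹ *
          (∑ f ∈ G, (((if Allowed x y G f then G.erase f else G).card : ℕ) : ℝ≥0∞) + 1) := by
          rw [mul_add]
      _ ≤ (G.card : ℝ≥0∞)⁻¹ * ((G.card : ℝ≥0∞) * G.card) := mul_le_mul_right hsum _
      _ = G.card := by
          rw [← mul_assoc, ENNReal.inv_mul_cancel hc0 hct, one_mul]

open Classical in
/-- The probability of not having stopped after `k` steps. -/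
noncomputable def notStopped (x y n k : ℕ) : ℝ≥0∞ :=
  ex (law x y n k) fun G => if ¬ Stopped x y G then 1 else 0

lemma sum_notStopped (k : ℕ) :
    ex (law x y n k) (fun H => (H.card : ℝ≥0∞)) +
      (∑ j ∈ Finset.range k, notStopped x y n j) * ((n * n : ℕ) : ℝ≥0∞)⁻¹ ≤
      (completeGraph n).card := by
  induction k with
  | zero =>
    simp [law_zero, ex_pure]
  | succ k ih =>
    refine le_trans ?_ ih
    rw [Finset.sum_range_succ, add_mul, law_succ, ex_bind]
    have h1 : ex (law x y n k) (fun G => ex (step x y G) (fun H => (H.card : ℝ≥0∞))) +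
        notStopped x y n k * ((n * n : ℕ) : ℝ≥0∞)⁻¹ ≤
        ex (law x y n k) (fun G => (G.card : ℝ≥0∞)) := by
      unfold notStopped
      rw [mul_comm, ← ex_mul_left, ← ex_add]
      refine ex_mono _ fun G _ => ?_
      rw [mul_comm]
      exact ex_step_card x y G
    calc _ = (ex (law x y n k) (fun G => ex (step x y G) (fun H => (H.card : ℝ≥0∞))) +
        notStopped x y n k * ((n * n : ℕ) : ℝ≥0∞)⁻¹) +
        (∑ j ∈ Finset.range k, notStopped x y n j) * ((n * n : ℕ) : ℝ≥0∞)⁻¹ := by ring
      _ ≤ _ := add_le_add h1 le_rfl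

open Classical in
/-- At every time, the four cases exhaust the total mass. -/
lemma one_le_cases (hx : 1 ≤ x) (hy : 1 ≤ y) (k : ℕ) :
    1 ≤ (law x y n k).toOuterMeasure {G | Stopped x y G ∧ IsXY x y G} +
      ex (law x y n k) (fun G => if Stopped x y G ∧ (emp Prod.snd G).card < x then 1 else 0) +
      ex (law x y n k) (fun G => if Stopped x y G ∧ (emp Prod.fst G).card < y then 1 else 0) +
      notStopped x y n k := by
  rw [← ex_indicator]
  unfold notStopped
  rw [← ex_add, ← ex_add, ← ex_add]
  calc (1 : ℝ≥0∞) = ex (law x y n k) (fun _ => 1) := (ex_const _ _).symm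
    _ ≤ _ := by
      refine ex_mono _ fun G hG => ?_
      obtain ⟨h1, h2⟩ := law_card x y hx hy k G hG
      by_cases hS : Stopped x y G
      · by_cases hi : (emp Prod.snd G).card < x
        · simp only [hS, hi, and_self, if_true]
          exact le_trans (le_trans le_add_self le_self_add) le_self_add
        · by_cases ht : (emp Prod.fst G).card < y
          · simp [hS, ht]
          · have hi' : (initials G).card = x := le_antisymm h1 (not_lt.1 hi)
            have ht' : (terminals G).card = y := le_antisymm h2 (not_lt.1 ht)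
            have hm : G ∈ {G : Finset (Fin n × Fin n) | Stopped x y G ∧ IsXY x y G} :=
              ⟨hS, hi', ht'⟩
            rw [if_pos hm]
            exact le_trans (le_trans le_self_add le_self_add) le_self_add
      · simp [hS]

/-- The main bound, with arbitrary covering sets of edges. -/
lemma one_le_stopProb (hx : 1 ≤ x) (hy : 1 ≤ y) (ε : ℝ≥0∞)
    (hε : ∀ k, ex (law x y n k)
        (fun G => open Classical in if Stopped x y G ∧ (emp Prod.snd G).card < x then 1 else 0) +
      ex (law x y n k)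
        (fun G => open Classical in if Stopped x y G ∧ (emp Prod.fst G).card < y then 1 else 0)
        ≤ ε) :
    1 ≤ stopProb x y n + ε := by
  by_contra hcon
  rw [not_le] at hcon
  set δ : ℝ≥0∞ := 1 - (stopProb x y n + ε) with hδ
  have hδpos : 0 < δ := tsub_pos_of_lt hcon
  have hk : ∀ k, δ ≤ notStopped x y n k := by
    intro k
    rw [hδ, tsub_le_iff_right]
    calc (1 : ℝ≥0∞) ≤ _ := one_le_cases x y hx hy k
      _ = notStopped x y n k + ((law x y n k).toOuterMeasure {G | Stopped x y G ∧ IsXY x y G} +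
          (ex (law x y n k) (fun G => open Classical in
            if Stopped x y G ∧ (emp Prod.snd G).card < x then 1 else 0) +
          ex (law x y n k) (fun G => open Classical in
            if Stopped x y G ∧ (emp Prod.fst G).card < y then 1 else 0))) := by ring
      _ ≤ notStopped x y n k + (stopProb x y n + ε) := by
          refine add_le_add le_rfl (add_le_add ?_ (hε k))
          exact le_iSup (fun k => (law x y n k).toOuterMeasure
            {G | Stopped x y G ∧ IsXY x y G}) k
  -- the sum of the masses is bounded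
  have hN : ∀ k : ℕ, (k : ℝ≥0∞) * (δ * ((n * n : ℕ) : ℝ≥0∞)⁻¹) ≤ (completeGraph n).card := by
    intro k
    calc (k : ℝ≥0∞) * (δ * ((n * n : ℕ) : ℝ≥0∞)⁻¹)
        = (∑ j ∈ Finset.range k, δ) * ((n * n : ℕ) : ℝ≥0∞)⁻¹ := by
          rw [Finset.sum_const, Finset.card_range, nsmul_eq_mul, mul_assoc]
      _ ≤ (∑ j ∈ Finset.range k, notStopped x y n j) * ((n * n : ℕ) : ℝ≥0∞)⁻¹ :=
          mul_le_mul_left (Finset.sum_le_sum fun j _ => hk j) _
      _ ≤ ex (law x y n k) (fun H => (H.card : ℝ≥0∞)) +
          (∑ j ∈ Finset.range k, notStopped x y n j) * ((n * n : ℕ) : ℝ≥0∞)⁻¹ :=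
          le_add_self
      _ ≤ _ := sum_notStopped x y k
  have hc : δ * ((n * n : ℕ) : ℝ≥0∞)⁻¹ ≠ 0 := by
    refine mul_ne_zero hδpos.ne' ?_
    exact ENNReal.inv_ne_zero.2 (ENNReal.natCast_ne_top _)
  have hlim : (⊤ : ℝ≥0∞) ≤ (completeGraph n).card := by
    have h1 : ⨆ k : ℕ, (k : ℝ≥0∞) * (δ * ((n * n : ℕ) : ℝ≥0∞)⁻¹) = ⊤ := by
      rw [← ENNReal.iSup_mul, ENNReal.iSup_natCast, ENNReal.top_mul hc]
    rw [← h1]
    exact iSup_le hN
  exact (ENNReal.natCast_ne_top _) (top_le_iff.1 hlim)

/-- The edges among the first `x` vertices. -/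
def headEdges (x n : ℕ) : Finset (Fin n × Fin n) :=
  Finset.univ.filter fun e => e.1 < e.2 ∧ e.2.val < x

/-- The edges among the last `y` vertices. -/
def tailEdges (y n : ℕ) : Finset (Fin n × Fin n) :=
  Finset.univ.filter fun e => e.1 < e.2 ∧ n ≤ e.1.val + y

lemma headEdges_card (x n : ℕ) : (headEdges x n).card ≤ x * x := by
  have h : (headEdges x n).card ≤ (Finset.range x ×ˢ Finset.range x).card := by
    refine Finset.card_le_card_of_injOn (fun e => (e.1.val, e.2.val)) ?_ ?_
    · intro e he
      simp only [headEdges, Finset.coe_filter, Finset.mem_univ, true_and, Set.mem_ofPred_eq] at he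
      simp only [Finset.coe_product, Finset.coe_range, Set.mem_prod, Set.mem_Iio]
      have := Fin.lt_def.1 he.1
      exact ⟨by omega, he.2⟩
    · intro a _ b _ hab
      simp only [Prod.mk.injEq] at hab
      exact Prod.ext (Fin.ext hab.1) (Fin.ext hab.2)
  simpa using h

lemma tailEdges_card (y n : ℕ) : (tailEdges y n).card ≤ y * y := by
  have h : (tailEdges y n).card ≤ (Finset.range y ×ˢ Finset.range y).card := by
    refine Finset.card_le_card_of_injOn (fun e => (n - 1 - e.1.val, n - 1 - e.2.val)) ?_ ?_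
    · intro e he
      simp only [tailEdges, Finset.coe_filter, Finset.mem_univ, true_and, Set.mem_ofPred_eq] at he
      simp only [Finset.coe_product, Finset.coe_range, Set.mem_prod, Set.mem_Iio]
      have h1 := Fin.lt_def.1 he.1
      have h2 := e.1.isLt
      have h3 := e.2.isLt
      exact ⟨by omega, by omega⟩
    · intro a _ b _ hab
      simp only [Prod.mk.injEq] at hab
      have h1 := a.1.isLt
      have h2 := a.2.isLt
      have h3 := b.1.isLt
      have h4 := b.2.isLt
      exact Prod.ext (Fin.ext (by omega)) (Fin.ext (by omega))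
  simpa using h

lemma sm_head (x y : ℕ) (e : Fin n × Fin n) (he : e ∈ headEdges x n) :
    sm Prod.snd Prod.fst x y e (completeGraph n) ≤ ((n - x : ℕ) : ℝ≥0∞)⁻¹ := by
  unfold sm
  split_ifs with h
  · refine ENNReal.inv_le_inv.2 ?_
    simp only [headEdges, Finset.mem_filter, Finset.mem_univ, true_and] at he
    have hlt := Fin.lt_def.1 he.1
    have : n - x ≤ (fib Prod.fst e (completeGraph n)).card := by
      have h1 : (Finset.univ.filter fun v : Fin n => x ≤ v.val).card ≤
          (fib Prod.fst e (completeGraph n)).card := by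
        refine Finset.card_le_card_of_injOn (fun v => (e.1, v)) ?_ ?_
        · intro v hv
          simp only [Finset.coe_filter, Finset.mem_univ, true_and, Set.mem_ofPred_eq] at hv
          simp only [fib, completeGraph, Finset.coe_filter, Finset.mem_filter, Finset.mem_univ,
            true_and, Set.mem_ofPred_eq, Fin.lt_def, and_true]
          omega
        · intro a _ b _ hab
          simpa using hab
      refine le_trans ?_ h1
      have h2 : (Finset.univ.filter fun v : Fin n => x ≤ v.val).card +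
          (Finset.univ.filter fun v : Fin n => ¬ x ≤ v.val).card = n := by
        rw [Finset.card_filter_add_card_filter_not]
        simp
      have h3 : (Finset.univ.filter fun v : Fin n => ¬ x ≤ v.val).card ≤ x := by
        calc _ ≤ (Finset.range x).card := by
              refine Finset.card_le_card_of_injOn (fun v => v.val) ?_ ?_
              · intro v hv
                simp only [Finset.coe_filter, Finset.mem_univ, true_and, Set.mem_ofPred_eq,
                  not_le] at hv
                simpa using hv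
              · intro a _ b _ hab
                exact Fin.ext hab
          _ = x := Finset.card_range x
      omega
    exact_mod_cast this
  · exact bot_le

lemma sm_tail (x y : ℕ) (e : Fin n × Fin n) (he : e ∈ tailEdges y n) :
    sm Prod.fst Prod.snd y x e (completeGraph n) ≤ ((n - y : ℕ) : ℝ≥0∞)⁻¹ := by
  unfold sm
  split_ifs with h
  · refine ENNReal.inv_le_inv.2 ?_
    simp only [tailEdges, Finset.mem_filter, Finset.mem_univ, true_and] at he
    have hlt := Fin.lt_def.1 he.1
    have : n - y ≤ (fib Prod.snd e (completeGraph n)).card := by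
      have h1 : (Finset.univ.filter fun v : Fin n => v.val + y < n).card ≤
          (fib Prod.snd e (completeGraph n)).card := by
        refine Finset.card_le_card_of_injOn (fun v => (v, e.2)) ?_ ?_
        · intro v hv
          simp only [Finset.coe_filter, Finset.mem_univ, true_and, Set.mem_ofPred_eq] at hv
          simp only [fib, completeGraph, Finset.coe_filter, Finset.mem_filter, Finset.mem_univ,
            true_and, Set.mem_ofPred_eq, Fin.lt_def, and_true]
          omega
        · intro a _ b _ hab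
          simpa using hab
      refine le_trans ?_ h1
      calc n - y = (Finset.range (n - y)).card := (Finset.card_range _).symm
        _ ≤ _ := by
          refine Finset.card_le_card_of_injOn
            (fun i => if hi : i < n then (⟨i, hi⟩ : Fin n) else e.1) ?_ ?_
          · intro i hi
            simp only [Finset.coe_range, Set.mem_Iio] at hi
            have hi' : i < n := by omega
            simp only [hi', dif_pos, Finset.coe_filter, Finset.mem_univ, true_and,
              Set.mem_ofPred_eq]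
            omega
          · intro a ha b hb hab
            simp only [Finset.coe_range, Set.mem_Iio] at ha hb
            have ha' : a < n := by omega
            have hb' : b < n := by omega
            simpa [ha', hb'] using hab
    exact_mod_cast this
  · exact bot_le

lemma head_cover (x : ℕ) (hxn : x ≤ n) (G : Finset (Fin n × Fin n)) (hG : G ⊆ completeGraph n)
    (hlt : (emp Prod.snd G).card < x) : ∃ e ∈ headEdges x n, e ∈ G := by
  by_contra hcon
  push Not at hcon
  have hsub : (Finset.univ.filter fun v : Fin n => v.val < x) ⊆ emp Prod.snd G := by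
    intro v hv
    simp only [emp, Finset.mem_filter, Finset.mem_univ, true_and] at hv ⊢
    rintro e he rfl
    refine hcon e ?_ he
    have := hG he
    simp only [completeGraph, Finset.mem_filter, Finset.mem_univ, true_and] at this
    simp only [headEdges, Finset.mem_filter, Finset.mem_univ, true_and]
    exact ⟨this, hv⟩
  have h1 := Finset.card_le_card hsub
  have h2 : x ≤ (Finset.univ.filter fun v : Fin n => v.val < x).card := by
    calc x = (Finset.univ : Finset (Fin x)).card := by simp
      _ ≤ _ := by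
        refine Finset.card_le_card_of_injOn (fun i => Fin.castLE hxn i) ?_ ?_
        · intro i _
          simp
        · intro a _ b _ hab
          exact Fin.castLE_injective hxn hab
  omega

lemma tail_cover (y : ℕ) (hyn : y ≤ n) (G : Finset (Fin n × Fin n)) (hG : G ⊆ completeGraph n)
    (hlt : (emp Prod.fst G).card < y) : ∃ e ∈ tailEdges y n, e ∈ G := by
  by_contra hcon
  push Not at hcon
  have hsub : (Finset.univ.filter fun v : Fin n => n ≤ v.val + y) ⊆ emp Prod.fst G := by
    intro v hv
    simp only [emp, Finset.mem_filter, Finset.mem_univ, true_and] at hv ⊢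
    rintro e he rfl
    refine hcon e ?_ he
    have := hG he
    simp only [completeGraph, Finset.mem_filter, Finset.mem_univ, true_and] at this
    simp only [tailEdges, Finset.mem_filter, Finset.mem_univ, true_and]
    exact ⟨this, hv⟩
  have h1 := Finset.card_le_card hsub
  have h2 : y ≤ (Finset.univ.filter fun v : Fin n => n ≤ v.val + y).card := by
    calc y = (Finset.univ : Finset (Fin y)).card := by simp
      _ ≤ _ := by
        refine Finset.card_le_card_of_injOn
          (fun i => (⟨n - 1 - i.val, by have := i.isLt; omega⟩ : Fin n)) ?_ ?_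
        · intro i _
          have := i.isLt
          simp only [Finset.coe_filter, Finset.mem_univ, true_and, Set.mem_ofPred_eq]
          omega
        · intro a _ b _ hab
          have h1 := a.isLt
          have h2 := b.isLt
          simp only [Fin.mk.injEq] at hab
          exact Fin.ext (by omega)
  omega

/-- The quantitative bound. -/
theorem one_le_stopProb_add (x y n : ℕ) (hx : 1 ≤ x) (hy : 1 ≤ y) (hxn : x ≤ n) (hyn : y ≤ n) :
    1 ≤ stopProb x y n +
      (((x * x : ℕ) : ℝ≥0∞) * ((n - x : ℕ) : ℝ≥0∞)⁻¹ +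
        ((y * y : ℕ) : ℝ≥0∞) * ((n - y : ℕ) : ℝ≥0∞)⁻¹) := by
  refine one_le_stopProb x y hx hy _ fun k => add_le_add ?_ ?_
  · refine le_trans (stopped_lt_le x y Prod.snd Prod.fst x y (fun G e => Iff.rfl)
      (fun k G hG => (law_card x y hx hy k G hG).2) (headEdges x n)
      (fun G hG hlt => head_cover x hxn G hG hlt) k) ?_
    calc ∑ e ∈ headEdges x n, sm Prod.snd Prod.fst x y e (completeGraph n)
        ≤ ∑ e ∈ headEdges x n, ((n - x : ℕ) : ℝ≥0∞)⁻¹ :=
          Finset.sum_le_sum fun e he => sm_head x y e he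
      _ = ((headEdges x n).card : ℝ≥0∞) * ((n - x : ℕ) : ℝ≥0∞)⁻¹ := by
          rw [Finset.sum_const, nsmul_eq_mul]
      _ ≤ _ := mul_le_mul_left (by exact_mod_cast headEdges_card x n) _
  · refine le_trans (stopped_lt_le x y Prod.fst Prod.snd y x (fun G e => and_comm)
      (fun k G hG => (law_card x y hx hy k G hG).1) (tailEdges y n)
      (fun G hG hlt => tail_cover y hyn G hG hlt) k) ?_
    calc ∑ e ∈ tailEdges y n, sm Prod.fst Prod.snd y x e (completeGraph n)
        ≤ ∑ e ∈ tailEdges y n, ((n - y : ℕ) : ℝ≥0∞)⁻¹ :=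
          Finset.sum_le_sum fun e he => sm_tail x y e he
      _ = ((tailEdges y n).card : ℝ≥0∞) * ((n - y : ℕ) : ℝ≥0∞)⁻¹ := by
          rw [Finset.sum_const, nsmul_eq_mul]
      _ ≤ _ := mul_le_mul_left (by exact_mod_cast tailEdges_card y n) _

lemma stopProb_le_one (x y n : ℕ) : stopProb x y n ≤ 1 := by
  refine iSup_le fun k => ?_
  classical
  rw [← ex_indicator]
  calc _ ≤ ex (law x y n k) (fun _ => 1) := by
        refine ex_mono _ fun G _ => ?_
        split_ifs
        · exact le_rfl
        · exact bot_le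
    _ = 1 := ex_const _ _

end Chain

lemma tendsto_bound (x : ℕ) : Tendsto (fun n : ℕ =>
    ((x * x : ℕ) : ℝ≥0∞) * ((n - x : ℕ) : ℝ≥0∞)⁻¹) atTop (𝓝 0) := by
  have h1 : Tendsto (fun n : ℕ => ((n - x : ℕ) : ℝ≥0∞)⁻¹) atTop (𝓝 0) :=
    ENNReal.tendsto_inv_nat_nhds_zero.comp (tendsto_sub_atTop_nat x)
  have h2 := ENNReal.Tendsto.const_mul (a := ((x * x : ℕ) : ℝ≥0∞)) h1
    (Or.inr (ENNReal.natCast_ne_top _))
  simpa using h2

/-- **Main theorem.** For all integers `x, y ≥ 1`, the probability that the `(x,y)` edge-removal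
process on `n` vertices stops at an `(x,y)` task-dependency graph tends to `1`. -/
theorem main (x y : ℕ) (hx : 1 ≤ x) (hy : 1 ≤ y) :
    Tendsto (fun n : ℕ => (stopProb x y n).toReal) atTop (𝓝 1) := by
  have hlim : Tendsto (fun n : ℕ => stopProb x y n) atTop (𝓝 1) := by
    have hε : Tendsto (fun n : ℕ => (((x * x : ℕ) : ℝ≥0∞) * ((n - x : ℕ) : ℝ≥0∞)⁻¹ +
        ((y * y : ℕ) : ℝ≥0∞) * ((n - y : ℕ) : ℝ≥0∞)⁻¹)) atTop (𝓝 0) := by
      have := (tendsto_bound x).add (tendsto_bound y)
      simpa using this
    have hlow : Tendsto (fun n : ℕ => 1 - (((x * x : ℕ) : ℝ≥0∞) * ((n - x : ℕ) : ℝ≥0∞)⁻¹ +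
        ((y * y : ℕ) : ℝ≥0∞) * ((n - y : ℕ) : ℝ≥0∞)⁻¹)) atTop (𝓝 1) := by
      have := ENNReal.Tendsto.sub (tendsto_const_nhds (x := (1 : ℝ≥0∞)) (f := atTop)) hε
        (Or.inl ENNReal.one_ne_top)
      simpa using this
    refine tendsto_of_tendsto_of_tendsto_of_le_of_le' hlow tendsto_const_nhds ?_ ?_
    · filter_upwards [eventually_ge_atTop x, eventually_ge_atTop y] with n hxn hyn
      rw [tsub_le_iff_right]
      exact one_le_stopProb_add x y n hx hy hxn hyn
    · exact Eventually.of_forall fun n => stopProb_le_one x y n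
  have := (ENNReal.tendsto_toReal ENNReal.one_ne_top).comp hlim
  simpa [Function.comp_def] using this

end Pool.Agent.H95.EdgeRemoval
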